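import Mathlib
import Pool.Agent.Work.MP_c51d14_co.Basic2

/-!
# CORE: the parity argument
-/

namespace Pool.Agent.TP

open Finset

/-- the boundary of a simplex, summed against the indicator of a property -/
theorem simp_sum_eq {L : Type} [Fintype L] [DecidableEq L] (S : Finset L) (P : Finset L → Prop)
    [DecidablePred P] :
    ∑ R : Finset L, (Inc.simp L).d S R * (if P R then (1 : ZMod 2) else 0) =
      ((S.filter fun x => P (S.erase x)).card : ZMod 2) := by
  have h1 : ∀ R : Finset L, (Inc.simp L).d S R * (if P R then (1 : ZMod 2) else 0) =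
      if (R ⊆ S ∧ R.card + 1 = S.card) ∧ P R then (1 : ZMod 2) else 0 := by
    intro R
    by_cases h : R ⊆ S ∧ R.card + 1 = S.card
    · have : (Inc.simp L).d S R = 1 := if_pos h
      rw [this, one_mul]
      by_cases h' : P R
      · simp [h, h']
      · simp [h']
    · have : (Inc.simp L).d S R = 0 := if_neg h
      rw [this, zero_mul, if_neg fun h' => h h'.1]
  rw [Finset.sum_congr rfl fun R _ => h1 R, ← Finset.sum_filter]
  have h2 : ((S.filter fun x => P (S.erase x)).card : ZMod 2) =
      ∑ a ∈ S.filter (fun x => P (S.erase x)), (1 : ZMod 2) := by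
    simp
  rw [h2]
  symm
  refine Finset.sum_bij (fun x _ => S.erase x) ?_ ?_ ?_ ?_
  · intro x hx
    obtain ⟨hxS, hPx⟩ := Finset.mem_filter.1 hx
    exact Finset.mem_filter.2 ⟨Finset.mem_univ _, ⟨Finset.erase_subset _ _,
      Finset.card_erase_add_one hxS⟩, hPx⟩
  · intro x hx y hy hxy
    exact Finset.erase_injOn S (Finset.mem_filter.1 hx).1 (Finset.mem_filter.1 hy).1 hxy
  · intro R hR
    obtain ⟨-, ⟨hRS, hc⟩, hP⟩ := Finset.mem_filter.1 hR
    obtain ⟨x, hx, hxR⟩ := Finset.exists_of_ssubset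
      (Finset.ssubset_iff_subset_ne.2 ⟨hRS, fun h => by rw [h] at hc; omega⟩)
    have he : S.erase x = R := by
      symm
      refine Finset.eq_of_subset_of_card_le ?_ ?_
      · intro y hy
        exact Finset.mem_erase.2 ⟨fun h => hxR (h ▸ hy), hRS hy⟩
      · rw [Finset.card_erase_of_mem hx]; omega
    exact ⟨x, Finset.mem_filter.2 ⟨hx, he ▸ hP⟩, he⟩
  · intro x hx
    rfl

theorem stmt_Core (hT : Stmt_TCyc) (hE : Stmt_TExact) (hG : Stmt_Good) (hTri : Stmt_Tri)
    (hD : Stmt_Deg) (hP : Stmt_Par) : Stmt_Core := by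
  classical
  intro ι E W _ _ _ _ _ _ _ r D hNo
  obtain ⟨b, hb1, hb2⟩ := hE ι E W r D D.T (fun x hx hne => by
    have hx' : x.1.card = Module.finrank ℝ W ∧ ∀ i, x.2 i = ∅ := by
      by_contra hc
      exact hne (if_neg hc)
    show x.1.card + ∑ i, rk D.v ((x.2 i : Finset ι) : Set ι) = _
    rw [hx'.1]
    simp [hx'.2]) (hT ι E W r D)
  obtain ⟨bt, h1, h2⟩ := hTri ι E W r D b hb1 hb2
  obtain ⟨θ, hθ, h3⟩ := hD ι E W r D
  set P : Finset (Finset (Fin r × ι) ⊕ (Fin r × ι)) → Prop := fun R =>
    Pos D.vec (R : Set (Finset (Fin r × ι) ⊕ (Fin r × ι))) θ with hPdef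
  have hA : ∑ S, bt S * ∑ R, (Inc.simp (Finset (Fin r × ι) ⊕ (Fin r × ι))).d S R *
      (if P R then (1 : ZMod 2) else 0) = 0 := by
    refine Finset.sum_eq_zero fun S _ => ?_
    by_cases hS : bt S = 0
    · rw [hS, zero_mul]
    · obtain ⟨hc, x, hx, hxS⟩ := h1 S hS
      have hgood : Good D.vec (S : Set (Finset (Fin r × ι) ⊕ (Fin r × ι))) :=
        (hG ι E W r D hNo x hx).mono hxS
      have hpar := hP _ W D.vec θ S hθ hc hgood
      rw [simp_sum_eq S P]
      have he : (S.filter fun x => P (S.erase x)) =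
          S.filter fun x => Pos D.vec ((S : Set (Finset (Fin r × ι) ⊕ (Fin r × ι))) \ {x}) θ := by
        refine Finset.filter_congr fun x _ => ?_
        rw [hPdef]
        simp only [Finset.coe_erase]
      rw [he]
      have : (((S.filter fun x => Pos D.vec
        ((S : Set (Finset (Fin r × ι) ⊕ (Fin r × ι))) \ {x}) θ).card : ℕ) : ZMod 2) = 0 :=
        (ZMod.natCast_eq_zero_iff_even).2 hpar
      rw [this, mul_zero]
  have hB : ∑ S, bt S * ∑ R, (Inc.simp (Finset (Fin r × ι) ⊕ (Fin r × ι))).d S R *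
      (if P R then (1 : ZMod 2) else 0) = 1 := by
    have e1 : ∑ S, bt S * ∑ R, (Inc.simp (Finset (Fin r × ι) ⊕ (Fin r × ι))).d S R *
        (if P R then (1 : ZMod 2) else 0) =
        ∑ R, (∑ S, bt S * (Inc.simp (Finset (Fin r × ι) ⊕ (Fin r × ι))).d S R) *
          (if P R then (1 : ZMod 2) else 0) := by
      simp only [Finset.mul_sum, Finset.sum_mul]
      rw [Finset.sum_comm]
      refine Finset.sum_congr rfl fun R _ => Finset.sum_congr rfl fun S _ => by ring
    rw [e1]
    simp only [h2]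
    have e2 : ∀ R : Finset (Finset (Fin r × ι) ⊕ (Fin r × ι)),
        (if ∃ z ∈ D.CH, z.card = Module.finrank ℝ W ∧ R = z.image Sum.inl then (1 : ZMod 2) else 0) *
          (if P R then (1 : ZMod 2) else 0) =
        if R ∈ (D.CH.filter fun z => z.card = Module.finrank ℝ W ∧
          P (z.image Sum.inl)).image (fun z => z.image Sum.inl) then (1 : ZMod 2) else 0 := by
      intro R
      by_cases hR : ∃ z ∈ D.CH, z.card = Module.finrank ℝ W ∧ R = z.image Sum.inl
      · obtain ⟨z, hz, hzc, rfl⟩ := hR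
        by_cases hPR : P (z.image Sum.inl)
        · rw [if_pos ⟨z, hz, hzc, rfl⟩, if_pos hPR, if_pos, one_mul]
          exact Finset.mem_image.2 ⟨z, Finset.mem_filter.2 ⟨hz, hzc, hPR⟩, rfl⟩
        · rw [if_neg hPR, mul_zero, if_neg]
          intro h
          obtain ⟨z', hz', he⟩ := Finset.mem_image.1 h
          have := (Finset.mem_filter.1 hz').2.2
          rw [he] at this
          exact hPR this
      · rw [if_neg hR, zero_mul, if_neg]
        intro h
        obtain ⟨z', hz', he⟩ := Finset.mem_image.1 h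
        obtain ⟨h4, h5, h6⟩ := Finset.mem_filter.1 hz'
        exact hR ⟨z', h4, h5, he.symm⟩
    rw [Finset.sum_congr rfl fun R _ => e2 R, Finset.sum_ite_mem, Finset.univ_inter,
      Finset.sum_const, nsmul_eq_mul, mul_one, Finset.card_image_of_injective]
    · have : (D.CH.filter fun z => z.card = Module.finrank ℝ W ∧ P (z.image Sum.inl)).card = 1 := by
        rw [← h3]
      rw [this, Nat.cast_one]
    · exact Finset.image_injective Sum.inl_injective
  rw [hA] at hB
  exact absurd hB (by decide)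

end Pool.Agent.TP
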