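import Mathlib
import Pool.Agent.Work.MP_c51d14_co.Basic2

/-!
# GOOD: no positive relations on the supports of the cells
-/

namespace Pool.Agent.TP

open Finset
open scoped RealInnerProductSpace

theorem stmt_Good : Stmt_Good := by
  classical
  intro ι E W _ _ _ _ _ _ _ r D hNo x hx β hβ0 hβs hsum
  obtain ⟨hCH, hTup, hin⟩ := D.mem_sT.1 hx
  obtain ⟨hCH1, hCH2⟩ := D.mem_CH.1 hCH
  rw [Fintype.sum_sum_type] at hsum
  set bZ : Finset (Fin r × ι) → ℝ := fun Z => β (Sum.inl Z) with hbZ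
  set bk : Fin r × ι → ℝ := fun k => β (Sum.inr k) with hbk
  -- supports
  have hZs : ∀ Z, bZ Z ≠ 0 → Z ∈ x.1 := by
    intro Z hZ
    rcases D.mem_supp.1 (hβs _ hZ) with ⟨Z', hZ', he⟩ | ⟨i, j, hj, he⟩
    · rw [Sum.inl.inj he]; exact hZ'
    · exact absurd he (by simp)
  have hks : ∀ k : Fin r × ι, bk k ≠ 0 → k.2 ∈ x.2 k.1 := by
    intro k hk
    rcases D.mem_supp.1 (hβs _ hk) with ⟨Z', hZ', he⟩ | ⟨i, j, hj, he⟩
    · exact absurd he (by simp)
    · rw [Sum.inr.inj he]; exact hj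
  have hwit : ∀ Z, Z ∈ x.1 → D.Wit Z (D.wit Z).1 (D.wit Z).2 := fun Z hZ =>
    D.wit_spec (D.mem_N.1 (hCH1 Z hZ).1).1
  set u : W := ∑ Z, bZ Z • (D.wit Z).1 with hu
  set ψ : Module.Dual ℝ E := ∑ Z, bZ Z • (D.wit Z).2 with hψ
  have hval : ∀ k, D.val u ψ k = ∑ Z, bZ Z * D.val (D.wit Z).1 (D.wit Z).2 k := fun k =>
    D.val_sum univ bZ (fun Z => (D.wit Z).1) (fun Z => (D.wit Z).2) k
  have hterm : ∀ k Z, 0 ≤ bZ Z * D.val (D.wit Z).1 (D.wit Z).2 k := by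
    intro k Z
    by_cases h : bZ Z = 0
    · rw [h, zero_mul]
    · exact mul_nonneg (hβ0 _) ((hwit Z (hZs Z h)) k).1
  have hval0 : ∀ k, 0 ≤ D.val u ψ k := by
    intro k
    rw [hval]
    exact Finset.sum_nonneg fun Z _ => hterm k Z
  set y : W := ∑ k : Fin r × ι, bk k • D.Φ k.1 (D.v k.2) with hy
  have huy : u + y = 0 := hsum
  have hyu : y = -u := by
    rw [← add_eq_zero_iff_eq_neg, add_comm]; exact huy
  -- the value vanishes on the labels of the faces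
  have hkv : ∀ k, bk k ≠ 0 → D.val u ψ k = 0 := by
    intro k hk
    rw [hval]
    refine Finset.sum_eq_zero fun Z _ => ?_
    by_cases h : bZ Z = 0
    · rw [h, zero_mul]
    · have hZ := hZs Z h
      have : k ∈ Z := hin Z hZ k.1 k.2 (hks k hk)
      rw [((hwit Z hZ) k).2.1 this, mul_zero]
  have hsum0 : ∑ k, bk k * D.val u ψ k = 0 := by
    refine Finset.sum_eq_zero fun k _ => ?_
    by_cases h : bk k = 0
    · rw [h, zero_mul]
    · rw [hkv k h, mul_zero]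
  have hexp : ∑ k, bk k * D.val u ψ k = ∑ k, bk k * ψ (D.v k.2) - ⟪u, y⟫ := by
    rw [hy, inner_sum, ← Finset.sum_sub_distrib]
    refine Finset.sum_congr rfl fun k _ => ?_
    rw [Sark.val, inner_smul_right]
    ring
  have hinner : ⟪u, y⟫ = -⟪u, u⟫ := by rw [hyu, inner_neg_right]
  have hnn : 0 ≤ ∑ k, bk k * ψ (D.v k.2) := Finset.sum_nonneg fun k _ =>
    mul_nonneg (hβ0 _) (D.psi_nonneg hval0 k.2)
  have huu : (0 : ℝ) ≤ ⟪u, u⟫ := real_inner_self_nonneg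
  have hu0 : u = 0 := by
    rw [← inner_self_eq_zero (𝕜 := ℝ)]
    rw [hsum0, hinner] at hexp
    linarith
  have hy0 : y = 0 := by rw [hyu, hu0, neg_zero]
  have hk0 : ∀ k, bk k = 0 := hNo x.2 hTup bk (fun k => hβ0 _) (fun k hk => hks k hk) hy0
  have hZ0 : ∀ Z, bZ Z = 0 := by
    by_contra hne
    push Not at hne
    obtain ⟨Z₁, hZ₁⟩ := hne
    obtain ⟨Z₀, hZ₀, hmin⟩ := Sark.exists_min (z := x.1.filter fun Z => bZ Z ≠ 0)
      (fun Z hZ Z' hZ' => hCH2 Z (Finset.mem_filter.1 hZ).1 Z' (Finset.mem_filter.1 hZ').1)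
      ⟨Z₁, Finset.mem_filter.2 ⟨hZs Z₁ hZ₁, hZ₁⟩⟩
    obtain ⟨hZ₀x, hZ₀b⟩ := Finset.mem_filter.1 hZ₀
    have hψ0 : ψ = 0 := by
      refine Sark.psi_eq_zero_of_span (D.span_of_pos (D.mem_N.1 (hCH1 Z₀ hZ₀x).1).2) fun k hk => ?_
      have h1 : D.val u ψ k = 0 := by
        rw [hval]
        refine Finset.sum_eq_zero fun Z _ => ?_
        by_cases h : bZ Z = 0
        · rw [h, zero_mul]
        · have hZ := hZs Z h
          have hkZ : k ∈ Z := hmin Z (Finset.mem_filter.2 ⟨hZ, h⟩) hk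
          rw [((hwit Z hZ) k).2.1 hkZ, mul_zero]
      rw [Sark.val, hu0, inner_zero_left, sub_zero] at h1
      exact h1
    obtain ⟨k, hk⟩ : ∃ k, k ∉ Z₀ := by
      by_contra hc
      push Not at hc
      exact (hCH1 Z₀ hZ₀x).2 (Finset.eq_univ_iff_forall.2 hc)
    have h2 : D.val u ψ k = 0 := by
      rw [hu0, hψ0]; exact D.val_zero k
    rw [hval, Finset.sum_eq_zero_iff_of_nonneg fun Z _ => hterm k Z] at h2
    have h3 := h2 Z₀ (Finset.mem_univ _)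
    rcases mul_eq_zero.1 h3 with h4 | h4
    · exact hZ₀b h4
    · exact hk (((hwit Z₀ hZ₀x) k).2.2 h4)
  rintro (Z | k)
  · exact hZ0 Z
  · exact hk0 k

end Pool.Agent.TP
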