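import Mathlib
import Pool.Agent.Work.MP_c51d14_co.Basic

/-!
# LB: exactness of the families `Fam v F₀ Z K`
-/

namespace Pool.Agent.TP

open Finset

open scoped Classical in
theorem exact_empty_family {X : Type} (A : Inc X) (n : ℕ) : A.Exact (∅ : Finset X) n :=
  fun _ _ _ => ⟨0, fun x hx => absurd hx (by simp), fun x hx => absurd hx (by simp)⟩

open scoped Classical in
theorem lb_aux (hInt : Stmt_Interval) (hFilt : Stmt_Filt) (hTwo : Stmt_Two) (hCx : Stmt_CxFace)
    {ι E : Type} [Fintype ι] [AddCommGroup E] [Module ℝ E] [FiniteDimensional ℝ E] (v : ι → E)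
    (Z : Finset ι) (K : Set ι) (hZ : IsFace v Z) (k : ℕ) :
    ∀ (F₀ : Finset ι) (n : ℕ), (Z \ F₀).card = k → IsFace v F₀ → F₀ ⊆ Z →
      n + 1 + rk v ((F₀ : Set ι) ∪ (K ∩ (Z : Set ι))) ≤ rk v (Z : Set ι) + rk v (F₀ : Set ι) →
      (fInc v).Exact (Fam v F₀ Z K) n := by
  induction k using Nat.strong_induction_on with
  | _ k ih =>
  intro F₀ n hk hF₀ hsub hr
  rcases eq_or_ne F₀ Z with rfl | hne
  · intro c hc _
    refine ⟨0, fun x _ h => absurd rfl h, fun y hy => ?_⟩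
    have h1 : (fInc v).bd (Fam v F₀ F₀ K) 0 y = 0 := by
      simp [Inc.bd]
    rw [h1]
    by_contra hcy
    have h2 := hc y hy fun h => hcy h.symm
    obtain ⟨-, h3, h4, -⟩ := mem_Fam.1 hy
    have h5 : y = F₀ := Finset.Subset.antisymm h4 h3
    rw [h5, fInc_gr] at h2
    have h6 := rk_mono v (Set.subset_union_left : (F₀ : Set ι) ⊆ (F₀ : Set ι) ∪ (K ∩ (F₀ : Set ι)))
    omega
  · set s := Fam v F₀ Z ∅ with hs
    obtain ⟨p, hp⟩ : ∃ p : Finset ι → Prop, ∀ G, p G ↔ ∀ j ∈ G, j ∈ K → j ∈ F₀ :=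
      ⟨_, fun _ => Iff.rfl⟩
    have hmem : ∀ G, G ∈ s ↔ IsFace v G ∧ F₀ ⊆ G ∧ G ⊆ Z := fun G => mem_Fam_empty
    have hfil : s.filter p = Fam v F₀ Z K := by
      ext G
      rw [Finset.mem_filter, hmem, mem_Fam, hp]
      tauto
    have hcx : (fInc v).IsCx s := by
      refine hCx ι E v s (fun F hF => ((hmem F).1 hF).1) fun F hF G hG H hH h1 h2 => ?_
      exact (hmem H).2 ⟨hH, ((hmem F).1 hF).2.1.trans h1, h2.trans ((hmem G).1 hG).2.2⟩
    rw [← hfil]
    refine hTwo (Finset ι) (fInc v) s p n hcx ?_ (hInt ι E v F₀ Z n hF₀ hZ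
      (Finset.ssubset_iff_subset_ne.2 ⟨hsub, hne⟩)) ?_
    · intro x _ y _ hpx hd
      rw [hp] at hpx ⊢
      intro j hj hjK
      exact hpx j ((fInc_d.1 hd).1 hj) hjK
    · set Q := s.filter fun G => ¬ p G with hQ
      have hmemQ : ∀ G, G ∈ Q ↔ (IsFace v G ∧ F₀ ⊆ G ∧ G ⊆ Z) ∧ ¬ p G := by
        intro G
        rw [hQ, Finset.mem_filter, hmem]
      have hcxQ : (fInc v).IsCx Q := by
        refine hCx ι E v Q (fun F hF => ((hmemQ F).1 hF).1.1) fun F hF G hG H hH h1 h2 => ?_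
        refine (hmemQ H).2 ⟨⟨hH, ((hmemQ F).1 hF).1.2.1.trans h1,
          h2.trans ((hmemQ G).1 hG).1.2.2⟩, fun hpH => ((hmemQ F).1 hF).2 ((hp F).2 fun j hj => ?_)⟩
        exact (hp H).1 hpH j (h1 hj)
      refine hFilt (Finset ι) (Set ι) (fInc v) Q (fun G => {j | j ∈ G ∧ j ∈ K}) (n + 1) hcxQ ?_ ?_
      · intro x _ y _ hd j hj
        exact ⟨(fInc_d.1 hd).1 hj.1, hj.2⟩
      · intro T
        suffices h : ∀ P : Finset (Finset ι), (∀ G, G ∈ P ↔ G ∈ Q ∧ {j | j ∈ G ∧ j ∈ K} = T) →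
            (fInc v).Exact P (n + 1) from h _ fun G => Finset.mem_filter
        intro P hPmem
        rcases P.eq_empty_or_nonempty with he | ⟨G₀, hG₀⟩
        · rw [he]
          exact exact_empty_family _ _
        · obtain ⟨hG₀Q, hG₀T⟩ := (hPmem G₀).1 hG₀
          obtain ⟨⟨hG₀f, hG₀F, hG₀Z⟩, hG₀p⟩ := (hmemQ G₀).1 hG₀Q
          rw [hp] at hG₀p
          push Not at hG₀p
          obtain ⟨j₀, hj₀G, hj₀K, hj₀F⟩ := hG₀p
          have hj₀T : j₀ ∈ T := by rw [← hG₀T]; exact ⟨hj₀G, hj₀K⟩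
          set FT := cl v ((F₀ : Set ι) ∪ T) with hFT
          have hFTf : IsFace v FT := isFace_cl v _
          have hsubFT : (F₀ : Set ι) ∪ T ⊆ (FT : Set ι) := subset_cl v _
          have hF₀FT : F₀ ⊆ FT := fun j hj => hsubFT (Or.inl hj)
          have hTFT : ∀ j, j ∈ T → j ∈ FT := fun j hj => hsubFT (Or.inr hj)
          have hTK : ∀ j, j ∈ T → j ∈ K := by
            intro j hj
            rw [← hG₀T] at hj
            exact hj.2
          have hFTG₀ : FT ⊆ G₀ := by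
            refine cl_subset hG₀f ?_
            rintro j (hj | hj)
            · exact hG₀F hj
            · rw [← hG₀T] at hj
              exact hj.1
          have hpiece : P = Fam v FT Z K := by
            ext G
            rw [hPmem, hmemQ, mem_Fam]
            constructor
            · rintro ⟨⟨⟨h1, h2, h3⟩, -⟩, h5⟩
              refine ⟨h1, cl_subset h1 ?_, h3, fun j hj hjK => hTFT j ?_⟩
              · rintro j (hj | hj)
                · exact h2 hj
                · rw [← h5] at hj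
                  exact hj.1
              · rw [← h5]
                exact ⟨hj, hjK⟩
            · rintro ⟨h1, h2, h3, h4⟩
              refine ⟨⟨⟨h1, hF₀FT.trans h2, h3⟩, fun hpG => hj₀F ?_⟩, ?_⟩
              · exact (hp G).1 hpG j₀ (h2 (hTFT j₀ hj₀T)) hj₀K
              · ext j
                constructor
                · rintro ⟨hj, hjK⟩
                  rw [← hG₀T]
                  exact ⟨hFTG₀ (h4 j hj hjK), hjK⟩
                · intro hj
                  exact ⟨h2 (hTFT j hj), hTK j hj⟩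
          rw [hpiece]
          refine ih (Z \ FT).card ?_ FT (n + 1) rfl hFTf (hFTG₀.trans hG₀Z) ?_
          · rw [← hk]
            refine Finset.card_lt_card (Finset.ssubset_iff_subset_ne.2
              ⟨Finset.sdiff_subset_sdiff (Finset.Subset.refl _) hF₀FT, fun h => ?_⟩)
            have h1 : j₀ ∈ Z \ F₀ := Finset.mem_sdiff.2 ⟨hG₀Z hj₀G, hj₀F⟩
            rw [← h] at h1
            exact (Finset.mem_sdiff.1 h1).2 (hTFT j₀ hj₀T)
          · have h1 := rk_union_add_inter v (FT : Set ι) ((F₀ : Set ι) ∪ (K ∩ (Z : Set ι)))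
            have h2 : rk v ((FT : Set ι) ∪ (K ∩ (Z : Set ι))) ≤
                rk v ((FT : Set ι) ∪ ((F₀ : Set ι) ∪ (K ∩ (Z : Set ι)))) :=
              rk_mono v (Set.union_subset_union_right _ Set.subset_union_right)
            have h3 : rk v (F₀ : Set ι) <
                rk v ((FT : Set ι) ∩ ((F₀ : Set ι) ∪ (K ∩ (Z : Set ι)))) := by
              refine hF₀.rk_lt (j := j₀) (fun j hj => ⟨hF₀FT hj, Or.inl hj⟩) ?_ hj₀F
              exact ⟨hTFT j₀ hj₀T, Or.inr ⟨hj₀K, hG₀Z hj₀G⟩⟩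
            omega

theorem stmt_LB (hInt : Stmt_Interval) (hFilt : Stmt_Filt) (hTwo : Stmt_Two)
    (hCx : Stmt_CxFace) : Stmt_LB := by
  intro ι E _ _ _ _ v F₀ Z K n hF₀ hZ hsub hr
  classical
  exact lb_aux hInt hFilt hTwo hCx v Z K hZ _ F₀ n rfl hF₀ hsub hr

end Pool.Agent.TP
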