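import Mathlib
import Pool.Agent.Work.MP_c51d14_co.Interface

/-!
# LIN: the dimension inequality
-/

namespace Pool.Agent.TP

theorem stmt_Lin : Stmt_Lin := by
  intro E _ _ _ W Z KW KS Fs Sg N h1 h2 h3 h4 h5 h6 h7
  -- the modular equalities
  have e1 := Submodule.finrank_sup_add_finrank_inf_eq W Z
  have e2 := Submodule.finrank_sup_add_finrank_inf_eq Fs (N ⊔ KS)
  have e3 := Submodule.finrank_sup_add_finrank_inf_eq KW Sg
  have e4 := Submodule.finrank_sup_add_finrank_inf_eq KW (N ⊔ KS)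
  have e5 := Submodule.finrank_sup_add_finrank_inf_eq (KW ⊔ KS) N
  have e6 := Submodule.finrank_sup_add_finrank_inf_eq N (KW ⊓ (N ⊔ KS))
  -- inclusions
  have i1 : Module.finrank ℝ Sg ≤ Module.finrank ℝ ↥(Fs ⊓ (N ⊔ KS)) :=
    Submodule.finrank_mono (le_inf h4 (h5.trans le_sup_left))
  have i2 : Module.finrank ℝ ↥(N ⊔ KW ⊓ (N ⊔ KS)) ≤ Module.finrank ℝ ↥(W ⊓ Z) := by
    refine Submodule.finrank_mono (sup_le (le_inf h6 h7) (le_inf ?_ ?_))
    · exact inf_le_left.trans h1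
    · exact inf_le_right.trans (sup_le h7 h2)
  have i3 : Module.finrank ℝ ↥(N ⊓ (KW ⊓ (N ⊔ KS))) ≤ Module.finrank ℝ ↥((KW ⊔ KS) ⊓ N) := by
    refine Submodule.finrank_mono (le_inf ?_ inf_le_left)
    exact (inf_le_right.trans inf_le_left).trans le_sup_left
  have r1 : KW ⊔ (N ⊔ KS) = KW ⊔ KS ⊔ N := by
    rw [sup_comm N KS, sup_assoc]
  rw [r1] at e4
  have r2 : Fs ⊔ N ⊔ KS = Fs ⊔ (N ⊔ KS) := sup_assoc _ _ _
  rw [r2]
  omega

end Pool.Agent.TP
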