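import Mathlib
import Pool.Agent.Work.MP_c51d14_co.Basic2

/-!
# TCX: the cells `sT` form a complex
-/

namespace Pool.Agent.TP

open Finset

theorem simp_d_ne {α : Type} {S T : Finset α} (h : (Inc.simp α).d S T ≠ 0) :
    T ⊆ S ∧ T.card + 1 = S.card := by
  classical
  by_contra hc
  exact h (if_neg hc)

theorem stmt_TCx (hSimp : Stmt_CxSimp) (hTup : Stmt_CxTup) (hProd : Stmt_CxProd)
    (hConv : Stmt_CxConv) : Stmt_TCx := by
  classical
  intro ι E W _ _ _ _ _ _ _ r D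
  have h1 : (Inc.simp (Finset (Fin r × ι))).IsCx D.CH :=
    hSimp _ D.CH fun S hS T hT => D.mem_CH_mono hS hT
  have h2 : ((fInc D.v).pi r).IsCx (Tup D.v (fun _ : Fin r => univ) ∅) := hTup ι E D.v r _ _
  have h3 := hProd _ _ _ _ _ _ h1 h2
  refine hConv _ _ _ D.sT h3 ?_ ?_
  · intro x hx
    obtain ⟨h4, h5, -⟩ := D.mem_sT.1 hx
    exact Finset.mem_product.2 ⟨h4, h5⟩
  · intro x hx y hy z _ hd _
    obtain ⟨h4, h5, h6⟩ := D.mem_sT.1 hx
    obtain ⟨h7, h8⟩ := Finset.mem_product.1 hy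
    refine D.mem_sT.2 ⟨h7, h8, fun Z hZ i j hj => ?_⟩
    rcases prod_d_ne _ _ hd with ⟨ha, hb⟩ | ⟨ha, hb⟩
    · exact h6 Z ((simp_d_ne hb).1 hZ) i j (ha ▸ hj)
    · exact h6 Z (ha ▸ hZ) i j (pi_fInc_d_le hb i hj)

end Pool.Agent.TP
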