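import Mathlib
import Pool.Agent.Work.MP_c51d14_co.Basic2
import Pool.Agent.Work.MP_c51d14_co_helper2.Core
import Pool.Agent.Work.MP_c51d14_co_helper2.GoodB
import Pool.Agent.Work.MP_c51d14_co_helper2.LB
import Pool.Agent.Work.MP_c51d14_co_helper2.Lin
import Pool.Agent.Work.MP_c51d14_co_helper2.TCx
import Pool.Agent.Work.MP_c51d14_co_helper12.LP
import Pool.Agent.Work.MP_c51d14_co_helper12.P2
import Pool.Agent.Work.MP_c51d14_co_helper12.Tri
import Pool.Agent.Work.MP_c51d14_co_helper22.Alg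
import Pool.Agent.Work.MP_c51d14_co_helper27.Final
import Pool.Agent.Work.MP_c51d14_co_helper27.S
import Pool.Agent.Work.MP_c51d14_co_helper27.TEX
import Pool.Agent.Work.MP_c51d14_co_helper33.GEN
import Pool.Agent.Work.MP_c51d14_co_helper33.PAR
import Pool.Agent.Work.MP_c51d14_co_helper33.DEG
import Pool.Agent.Work.MP_c51d14_co_helper51.CxFace
import Pool.Agent.Work.MP_c51d14_co_helper51.Diamond
import Pool.Agent.Work.MP_c51d14_co_helper51.Filt
import Pool.Agent.Work.MP_c51d14_co_helper51.TCyc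
import Pool.Agent.Work.MP_c51d14_co_helper68.Star
import Pool.Agent.Work.MP_c51d14_co_helper99.Interval
import Pool.Agent.Work.MP_c51d14_co_helper99.Tensor

namespace Pool.Agent.TP

theorem cxTup : Stmt_CxTup := stmt_CxTup h22.stmt_CxPi h22.stmt_CxConv

theorem tcx : Stmt_TCx := stmt_TCx h22.stmt_CxSimp cxTup h22.stmt_CxProd h22.stmt_CxConv

theorem interval : Stmt_Interval := stmt_Interval stmt_Filt stmt_CxFace

theorem lb : Stmt_LB := stmt_LB interval stmt_Filt stmt_Two stmt_CxFace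

theorem star : Stmt_Star :=
  stmt_Star stmt_Filt stmt_Tensor h22.stmt_PiSucc cxTup stmt_CxFace lb stmt_Lin

/-- the theorem -/
theorem final : Stmt_Final := by
  have hLP := h12.stmt_LP
  have hP2 : Stmt_P2 := h12.stmt_P2 hLP
  have hTri : Stmt_Tri := h12.stmt_Tri tcx
  have hTC : Stmt_TCyc := stmt_TCyc hP2
  have hTE : Stmt_TExact := stmt_TExact stmt_Filt h22.stmt_Transp star tcx
  have hDeg : Stmt_Deg := stmt_Deg hLP stmt_Between
  exact stmt_Final (stmt_S (stmt_Core hTC hTE stmt_Good hTri hDeg stmt_Par) stmt_Gen)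

end Pool.Agent.TP
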