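import Mathlib

/-!
# Maps which are affine on an affine subspace extend to affine maps
-/

namespace Pool.Agent.TP

theorem exists_affine_of_line {n d : ℕ} (s : AffineSubspace ℝ (EuclideanSpace ℝ (Fin n)))
    {p : EuclideanSpace ℝ (Fin n)} (hp : p ∈ s)
    (g : EuclideanSpace ℝ (Fin n) → EuclideanSpace ℝ (Fin d))
    (hg : ∀ x ∈ s, ∀ y ∈ s, ∀ t : ℝ, g ((1 - t) • x + t • y) = (1 - t) • g x + t • g y) :
    ∃ h : EuclideanSpace ℝ (Fin n) →ᵃ[ℝ] EuclideanSpace ℝ (Fin d), ∀ x ∈ s, h x = g x := by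
  have hmem : ∀ v ∈ s.direction, p + v ∈ s := by
    intro v hv
    rw [add_comm]
    exact AffineSubspace.vadd_mem_of_mem_direction hv hp
  -- homogeneity
  have hsmul : ∀ (t : ℝ) (v : EuclideanSpace ℝ (Fin n)), v ∈ s.direction →
      g (p + t • v) - g p = t • (g (p + v) - g p) := by
    intro t v hv
    have h1 := hg p hp (p + v) (hmem v hv) t
    have h2 : (1 - t) • p + t • (p + v) = p + t • v := by
      rw [smul_add, sub_smul, one_smul]; abel
    rw [h2] at h1
    rw [h1, sub_smul, one_smul, smul_sub]; abel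
  have hadd : ∀ v ∈ s.direction, ∀ w ∈ s.direction,
      g (p + (v + w)) - g p = (g (p + v) - g p) + (g (p + w) - g p) := by
    intro v hv w hw
    have h1 := hg (p + (2 : ℝ) • v) (hmem _ (s.direction.smul_mem _ hv))
      (p + (2 : ℝ) • w) (hmem _ (s.direction.smul_mem _ hw)) (1 / 2)
    have h2 : ((1 : ℝ) - 1 / 2) • (p + (2 : ℝ) • v) + ((1 : ℝ) / 2) • (p + (2 : ℝ) • w) =
        p + (v + w) := by
      have e1 : ((1 : ℝ) - 1 / 2) = 1 / 2 := by norm_num
      rw [e1, smul_add, smul_add, smul_smul, smul_smul]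
      have e2 : ((1 : ℝ) / 2 * 2) = 1 := by norm_num
      rw [e2, one_smul, one_smul]
      have e3 : ((1 : ℝ) / 2) • p + ((1 : ℝ) / 2) • p = p := by
        rw [← add_smul]; norm_num
      calc ((1 : ℝ) / 2) • p + v + (((1 : ℝ) / 2) • p + w) =
          (((1 : ℝ) / 2) • p + ((1 : ℝ) / 2) • p) + (v + w) := by abel
        _ = p + (v + w) := by rw [e3]
    rw [h2] at h1
    have h3 := hsmul 2 v hv
    have h4 := hsmul 2 w hw
    have h5 : g (p + (2 : ℝ) • v) = g p + (2 : ℝ) • (g (p + v) - g p) := by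
      rw [← h3]; abel
    have h6 : g (p + (2 : ℝ) • w) = g p + (2 : ℝ) • (g (p + w) - g p) := by
      rw [← h4]; abel
    rw [h1, h5, h6]
    have e1 : ((1 : ℝ) - 1 / 2) = 1 / 2 := by norm_num
    rw [e1, smul_add, smul_add, smul_smul, smul_smul]
    have e2 : ((1 : ℝ) / 2 * 2) = 1 := by norm_num
    rw [e2, one_smul, one_smul]
    have e3 : ((1 : ℝ) / 2) • g p + ((1 : ℝ) / 2) • g p = g p := by
      rw [← add_smul]; norm_num
    calc ((1 : ℝ) / 2) • g p + (g (p + v) - g p) + (((1 : ℝ) / 2) • g p + (g (p + w) - g p)) - g p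
        = (((1 : ℝ) / 2) • g p + ((1 : ℝ) / 2) • g p) - g p +
          ((g (p + v) - g p) + (g (p + w) - g p)) := by abel
      _ = (g (p + v) - g p) + (g (p + w) - g p) := by rw [e3]; abel
  let L : s.direction →ₗ[ℝ] EuclideanSpace ℝ (Fin d) :=
    { toFun := fun v => g (p + v) - g p
      map_add' := fun v w => hadd v v.2 w w.2
      map_smul' := fun t v => hsmul t v v.2 }
  obtain ⟨M, hM⟩ := L.exists_extend
  refine ⟨⟨fun x => M (x - p) + g p, M, fun x v => ?_⟩, fun x hx => ?_⟩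
  · show M (v + x - p) + g p = M v + (M (x - p) + g p)
    rw [add_sub_assoc, map_add, add_assoc]
  · show M (x - p) + g p = g x
    have h1 : x - p ∈ s.direction := AffineSubspace.vsub_mem_direction hx hp
    have h2 : M (x - p) = L ⟨x - p, h1⟩ := by
      rw [← hM]; rfl
    rw [h2]
    show g (p + (x - p)) - g p + g p = g x
    rw [sub_add_cancel, add_sub_cancel]

end Pool.Agent.TP
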